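import Pool.Agent.Q161.TwoChain2

/-!
MP_1fed52_co, Q1: `NE_{s,2}(123)[q] = q^{s^2} c_s(q)`.
-/

set_option autoImplicit false

namespace Pool.Agent.Results.MP_1fed52_co.MajorIndexNEs2

open Finset Polynomial Q161.TwoRow

/-- the order of `NE_{s,t}`; the element `x + 1` of `[st]` is represented by `x`, so that it is
`(i - 1) t + j` with `i = x / t + 1` and `j = x % t + 1` -/
def NEle (s t : ℕ) (x y : Fin (s * t)) : Prop := (y : ℕ) / t ≤ (x : ℕ) / t ∧ (y : ℕ) % t ≤ (x : ℕ) % t

/-- `π` (one-line notation) is a linear extension of `NE_{s,t}` -/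
def IsLinExt (s t : ℕ) (π : Equiv.Perm (Fin (s * t))) : Prop :=
  ∀ a b, NEle s t (π a) (π b) → π a ≠ π b → a < b

open Classical in
/-- `NE_{s,t}(123)[q]` -/
noncomputable def NE123 (s t : ℕ) : ℤ[X] :=
  ∑ π ∈ univ.filter (fun π : Equiv.Perm (Fin (s * t)) => IsLinExt s t π ∧ Avoids123 π),
    X ^ maj (fun i => ((π i : Fin (s * t)) : ℕ))

/-- the labelling -/
def E (s : ℕ) : Bool × Fin s ≃ Fin (s * 2) where
  toFun p := ⟨2 * (s - 1 - p.2) + (!p.1).toNat, by
    have := p.2.2
    have := Bool.toNat_le (!p.1)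
    omega⟩
  invFun x := (decide ((x : ℕ) % 2 = 0), ⟨s - 1 - x / 2, by
    have := x.2
    omega⟩)
  left_inv := by
    rintro ⟨c, k⟩
    have := k.2
    apply Prod.ext
    · cases c
      · simp only [Bool.not_false, Bool.toNat_true]
        rw [decide_eq_false_iff_not]; omega
      · simp only [Bool.not_true, Bool.toNat_false]
        rw [decide_eq_true_iff]; omega
    · apply Fin.ext
      cases c <;> simp only [Bool.not_false, Bool.not_true, Bool.toNat_false, Bool.toNat_true] <;>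
        omega
  right_inv := by
    intro x
    have := x.2
    apply Fin.ext
    by_cases h : (x : ℕ) % 2 = 0
    · simp only [h, decide_true, Bool.not_true, Bool.toNat_false]
      omega
    · simp only [h, decide_false, Bool.not_false, Bool.toNat_true]
      omega

theorem E_val (s : ℕ) (x : Fin (s * 2)) :
    (x : ℕ) = 2 * (s - 1 - ((E s).symm x).2) + (!((E s).symm x).1).toNat := by
  have h : (E s) ((E s).symm x) = x := Equiv.apply_symm_apply _ _
  exact (congrArg Fin.val h).symm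

theorem le_iff (s : ℕ) (x y : Fin (s * 2)) :
    (E s).symm x ≤ (E s).symm y ↔ NEle s 2 x y := by
  have hx := x.2
  have hy := y.2
  have e1 : (E s).symm x = (decide ((x : ℕ) % 2 = 0), ⟨s - 1 - x / 2, by omega⟩) := rfl
  have e2 : (E s).symm y = (decide ((y : ℕ) % 2 = 0), ⟨s - 1 - y / 2, by omega⟩) := rfl
  rw [e1, e2, Prod.mk_le_mk, Fin.mk_le_mk]
  unfold NEle
  by_cases h1 : (x : ℕ) % 2 = 0 <;> by_cases h2 : (y : ℕ) % 2 = 0
  · simp only [h1, h2, le_refl, true_and, and_true]
    omega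
  · simp only [h1, h2, decide_true, decide_false]
    constructor
    · rintro ⟨h, _⟩
      exact absurd h (by decide)
    · rintro ⟨_, h⟩
      omega
  · simp only [h1, h2, decide_true, decide_false]
    constructor
    · rintro ⟨_, h⟩
      exact ⟨by omega, by omega⟩
    · rintro ⟨h, _⟩
      exact ⟨by decide, by omega⟩
  · simp only [h1, h2, decide_false, le_refl, true_and]
    constructor
    · intro h
      exact ⟨by omega, by omega⟩
    · rintro ⟨h, _⟩
      omega

theorem linExt_iff (s : ℕ) (π : Equiv.Perm (Fin (s * 2))) : IsLinExt s 2 π ↔ LE (E s) π := by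
  unfold IsLinExt Q161.TwoRow.LE
  constructor
  · intro h a b hab
    rw [le_iff] at hab
    by_cases hne : π a = π b
    · exact le_of_eq (π.injective hne)
    · exact le_of_lt (h a b hab hne)
  · intro h a b hab hne
    rw [← le_iff] at hab
    exact lt_of_le_of_ne (h a b hab) (fun he => hne (by rw [he]))

/-- three elements: two of them are in the same chain, which is decreasing -/
theorem avoids (s : ℕ) (π : Equiv.Perm (Fin (s * 2))) (h : LE (E s) π) : Avoids123 π := by
  rintro ⟨a, b, c, hab, hbc, h1, h2⟩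
  have key : ∀ x y : Fin (s * 2), x < y → ((E s).symm (π x)).1 = ((E s).symm (π y)).1 →
      π y < π x := by
    intro x y hxy hc
    have h3 : ¬ (E s).symm (π y) ≤ (E s).symm (π x) := fun h3 => absurd (h y x h3) (not_le.2 hxy)
    have h4 : ((E s).symm (π x)).2 < ((E s).symm (π y)).2 := by
      by_contra hc'
      rw [not_lt] at hc'
      exact h3 ⟨le_of_eq hc.symm, hc'⟩
    rw [Fin.lt_def] at h4 ⊢
    rw [E_val s (π y), E_val s (π x), hc]
    have := ((E s).symm (π y)).2.2
    omega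
  have k1 := key a b hab
  have k2 := key b c hbc
  have k3 := key a c (hab.trans hbc)
  have h3 := h1.trans h2
  rcases Bool.eq_false_or_eq_true ((E s).symm (π a)).1 with ea | ea <;>
    rcases Bool.eq_false_or_eq_true ((E s).symm (π b)).1 with eb | eb <;>
    rcases Bool.eq_false_or_eq_true ((E s).symm (π c)).1 with ec | ec <;>
    rw [ea, eb] at k1 <;> rw [eb, ec] at k2 <;> rw [ea, ec] at k3 <;>
    first
      | exact absurd (k1 rfl) (not_lt.2 h1.le)
      | exact absurd (k2 rfl) (not_lt.2 h2.le)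
      | exact absurd (k3 rfl) (not_lt.2 h3.le)

theorem maj_pi (s : ℕ) (π : Equiv.Perm (Fin (s * 2))) (h : LE (E s) π) :
    maj (fun i => ((π i : Fin (s * 2)) : ℕ)) =
      ∑ i ∈ range (s * 2 - 1), if ¬ (i ∉ pos (E s) π ∧ i + 1 ∈ pos (E s) π ∧
        2 * one (pos (E s) π) (i + 1) + 2 ≤ i + 1) then i + 1 else 0 := by
  classical
  apply maj_eq
  intro i hi
  have hbal := bal_pos h
  have hs1 := one_succ (pos (E s) π) i
  have b1 := hbal (i + 1) (by omega)
  have b2 := hbal (i + 1 + 1) (by omega)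
  have hs2 := one_succ (pos (E s) π) (i + 1)
  have v1 := E_val s (π ⟨i, by omega⟩)
  have v2 := E_val s (π ⟨i + 1, hi⟩)
  have l1 := ((E s).symm (π ⟨i, by omega⟩)).2.2
  have l2 := ((E s).symm (π ⟨i + 1, hi⟩)).2.2
  by_cases h1 : i ∈ pos (E s) π <;> by_cases h2 : i + 1 ∈ pos (E s) π
  · obtain ⟨a1, a2⟩ := val_true h ⟨i, by omega⟩ h1
    obtain ⟨c1, c2⟩ := val_true h ⟨i + 1, hi⟩ h2
    rw [if_pos h1] at hs1
    rw [if_pos h2] at hs2
    rw [a1] at v1; rw [c1] at v2
    simp only [Bool.not_true, Bool.toNat_false] at v1 v2 a2 c2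
    simp only [h1, h2, not_true, false_and, not_false_iff, iff_true]
    omega
  · obtain ⟨a1, a2⟩ := val_true h ⟨i, by omega⟩ h1
    obtain ⟨c1, c2⟩ := val_false h ⟨i + 1, hi⟩ h2
    rw [if_pos h1] at hs1
    rw [if_neg h2] at hs2
    rw [a1] at v1; rw [c1] at v2
    simp only [Bool.not_true, Bool.not_false, Bool.toNat_true, Bool.toNat_false] at v1 v2 a2 c2
    simp only [h1, h2, not_true, false_and, not_false_iff, iff_true]
    omega
  · obtain ⟨a1, a2⟩ := val_false h ⟨i, by omega⟩ h1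
    obtain ⟨c1, c2⟩ := val_true h ⟨i + 1, hi⟩ h2
    rw [if_neg h1] at hs1
    rw [if_pos h2] at hs2
    rw [a1] at v1; rw [c1] at v2
    simp only [Bool.not_true, Bool.not_false, Bool.toNat_true, Bool.toNat_false] at v1 v2 a2 c2
    simp only [h1, h2, true_and, not_false_iff]
    omega
  · obtain ⟨a1, a2⟩ := val_false h ⟨i, by omega⟩ h1
    obtain ⟨c1, c2⟩ := val_false h ⟨i + 1, hi⟩ h2
    rw [if_neg h1] at hs1
    rw [if_neg h2] at hs2
    rw [a1] at v1; rw [c1] at v2
    simp only [Bool.not_false, Bool.toNat_true] at v1 v2 a2 c2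
    simp only [h1, h2, false_and, and_false, not_false_iff, iff_true]
    omega

/-- For every `s ≥ 1`, `NE_{s,2}(123)[q] = q^{s^2} c_s(q)`. -/
theorem result (s : ℕ) (hs : 1 ≤ s) : NE123 s 2 = X ^ (s ^ 2) * cPoly s := by
  classical
  have h1 : NE123 s 2 = ∑ π ∈ univ.filter (fun π => LE (E s) π),
      (X : ℤ[X]) ^ maj (fun i => ((π i : Fin (s * 2)) : ℕ)) := by
    unfold NE123
    apply sum_congr
    · apply filter_congr
      intro π _
      rw [linExt_iff]
      exact ⟨fun h => h.1, fun h => ⟨h, avoids s π h⟩⟩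
    · intro π _; rfl
  have h2 := sum_LE (E := E s) (by ring : s * 2 = 2 * s)
    (fun π => (X : ℤ[X]) ^ maj (fun i => ((π i : Fin (s * 2)) : ℕ)))
    (fun S => (X : ℤ[X]) ^ (∑ i ∈ range (s * 2 - 1), if ¬ (i ∉ S ∧ i + 1 ∈ S ∧
        2 * one S (i + 1) + 2 ≤ i + 1) then i + 1 else 0))
    (fun π h => by simp only [maj_pi s π h])
  rw [h1, h2, show s * 2 = 2 * s by ring]
  apply sum_pow_flip s (s ^ 2) _ (nhp (2 * s)) (fun q => (Fq_eq_Pq q (2 * s) s).symm)
  intro S hS
  have h3 := sum_split (2 * s) (fun i => i ∉ S ∧ i + 1 ∈ S ∧ 2 * one S (i + 1) + 2 ≤ i + 1)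
  have h4 := gauss (2 * s - 1)
  rw [show 2 * s - 1 + 1 = 2 * s by omega] at h4
  unfold nhp
  rw [h3]
  obtain ⟨p, rfl⟩ : ∃ p, s = p + 1 := ⟨s - 1, by omega⟩
  rw [show p + 1 - 1 = p by omega]
  rw [show 2 * (p + 1) - 1 = 2 * p + 1 by omega] at h4 ⊢
  nlinarith

end Pool.Agent.Results.MP_1fed52_co.MajorIndexNEs2
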